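import Mathlib
import Pool.Agent.H659Z.CubDefs
import Pool.Agent.H659Z.CubRay

set_option autoImplicit false

namespace Pool.Agent.Results.MP_67b01c_gt.ANoExtension

open Pool.Agent.H659Z.Cub

/-- There is a locally finite CAT(0) cube complex with a cocompact group of automorphisms, on which
every `d_p` with `1 < p < ∞` has a geodesic bicombing, such that for all different `p` and `r` in
`(1, ∞)` the identity does not extend to a continuous map between the cone compactifications
built from `d_p` and `d_r`. -/
theorem result : ∃ (H : Type) (C : CubeComplex H) (o : C.Pt), C.LocallyFinite ∧ C.Cocompact ∧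
    (∀ p : ℝ, 1 < p → ∃ σ, IsBicombing (C.dist p) σ) ∧
    ∀ p r : ℝ, 1 < p → 1 < r → p ≠ r → ∀ σ τ, IsBicombing (C.dist p) σ →
      IsBicombing (C.dist r) τ → ¬ IdExtends (C.dist p) σ (C.dist r) τ o := by
  refine ⟨HH, CC, oo, locFin, cocompact, fun p hp => ?_, fun p r hp hr hne σ τ => ?_⟩
  · rw [dist_eq hp]; exact exists_bic hp
  · rw [dist_eq hp, dist_eq hr]; exact not_ext hp hr hne

end Pool.Agent.Results.MP_67b01c_gt.ANoExtension
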